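import Pool.Agent.Helper40.KZ.Stmts
import Pool.Agent.Helper60.JZ.TCH

/-! Row HAR: the Haar measure of the annihilator of a group of characters.   [helper29] -/

open Finset Filter MeasureTheory Topology
open scoped ComplexConjugate InnerProductSpace

namespace Pool.Agent.Helper40.KZ

open Pool.Agent.Helper16.AZ (T E Op mm fc Ind)
open Pool.Agent.Helper40.JZ (U cs tor Lift pj ms chi vz LM StrP tch_add tch_neg tch_c)
open UnitAddTorus (mFourier)

/-- the embedding of the rational circle into the circle -/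
noncomputable def ratC : AddCircle (1 : ℚ) →+ U :=
  QuotientAddGroup.lift (AddSubgroup.zmultiples (1 : ℚ))
    ((QuotientAddGroup.mk' (AddSubgroup.zmultiples (1 : ℝ))).comp
      (Rat.castHom ℝ).toAddMonoidHom) (by
    intro q hq
    obtain ⟨n, rfl⟩ := AddSubgroup.mem_zmultiples_iff.1 hq
    rw [AddMonoidHom.mem_ker]
    show ((((n • (1 : ℚ) : ℚ) : ℝ)) : U) = 0
    rw [AddCircle.coe_eq_zero_iff]
    exact ⟨n, by simp⟩)

theorem ratC_mk (q : ℚ) : ratC (q : AddCircle (1 : ℚ)) = (((q : ℝ)) : U) := rfl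

theorem ratC_inj : Function.Injective ratC := by
  rw [injective_iff_map_eq_zero]
  intro x hx
  induction x using QuotientAddGroup.induction_on with
  | H q =>
    have h1 : (((q : ℝ)) : U) = 0 := hx
    rw [AddCircle.coe_eq_zero_iff] at h1
    obtain ⟨n, hn⟩ := h1
    show ((q : ℚ) : AddCircle (1 : ℚ)) = 0
    rw [AddCircle.coe_eq_zero_iff]
    refine ⟨n, ?_⟩
    have h2 : ((n : ℚ) : ℝ) = ((q : ℚ) : ℝ) := by
      rw [← hn]
      simp
    have h3 : (n : ℚ) = q := by exact_mod_cast h2
    rw [← h3]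
    simp

/-- the annihilator -/
def ann {s : ℕ} (A : AddSubgroup (Fin s → ℤ)) : AddSubgroup (T s) where
  carrier := {k | ∀ a ∈ A, chi a k = 0}
  zero_mem' := fun a _ => chi_zero a
  add_mem' := by
    intro k k' h h' a ha
    rw [chi_add, h a ha, h' a ha, add_zero]
  neg_mem' := by
    intro k h a ha
    rw [tch_neg, h a ha, neg_zero]

theorem mem_ann {s : ℕ} {A : AddSubgroup (Fin s → ℤ)} {k : T s} :
    k ∈ ann A ↔ ∀ a ∈ A, chi a k = 0 := Iff.rfl

theorem isClosed_ann {s : ℕ} (A : AddSubgroup (Fin s → ℤ)) : IsClosed ((ann A : Set (T s))) := by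
  have h : (ann A : Set (T s)) = ⋂ a : A, (chi (a : Fin s → ℤ)) ⁻¹' {0} := by
    ext k
    simp only [SetLike.mem_coe, mem_ann, Set.mem_iInter, Set.mem_preimage, Set.mem_singleton_iff,
      Subtype.forall]
  rw [h]
  exact isClosed_iInter fun a => isClosed_singleton.preimage (continuous_chi _)

/-- characters of `ℤ ^ s` are given by points of the torus -/
theorem exists_ann {s : ℕ} (A : AddSubgroup (Fin s → ℤ)) (b : Fin s → ℤ) (hb : b ∉ A) :
    ∃ k ∈ ann A, chi b k ≠ 0 := by
  have h0 : (QuotientAddGroup.mk' A b) ≠ 0 := by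
    intro h
    exact hb ((QuotientAddGroup.eq_zero_iff b).1 h)
  obtain ⟨c, hc⟩ := CharacterModule.exists_character_apply_ne_zero_of_ne_zero h0
  let g : (Fin s → ℤ) →+ U := ratC.comp ((c : ((Fin s → ℤ) ⧸ A) →+ AddCircle (1 : ℚ)).comp
    (QuotientAddGroup.mk' A))
  have hg : ∀ a : Fin s → ℤ, chi a (fun i => g (Pi.single i 1)) = g a := by
    intro a
    have h1 : a = ∑ i, a i • (Pi.single i (1 : ℤ) : Fin s → ℤ) := by
      funext j
      simp [Finset.sum_apply, Pi.single_apply]
    conv_rhs => rw [h1]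
    rw [map_sum]
    simp only [chi, map_zsmul]
  refine ⟨fun i => g (Pi.single i 1), ?_, ?_⟩
  · intro a ha
    rw [hg]
    have h2 : QuotientAddGroup.mk' A a = 0 := (QuotientAddGroup.eq_zero_iff a).2 ha
    show ratC ((c : ((Fin s → ℤ) ⧸ A) →+ AddCircle (1 : ℚ)) (QuotientAddGroup.mk' A a)) = 0
    rw [h2, map_zero, map_zero]
  · rw [hg]
    intro h3
    apply hc
    apply ratC_inj
    rw [map_zero]
    exact h3

theorem st_HAR : ST_HAR := by
  intro s A
  have : CompactSpace (ann A) := isCompact_iff_compactSpace.1 (isClosed_ann A).isCompact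
  let μ : Measure (ann A) := Measure.addHaarMeasure ⊤
  have hμ : IsProbabilityMeasure μ := by
    constructor
    have := Measure.addHaarMeasure_self (G := ann A) (K₀ := ⊤)
    simpa using this
  have hm : Measurable (Subtype.val : ann A → T s) := measurable_subtype_coe
  refine ⟨μ.map Subtype.val, Measure.isProbabilityMeasure_map hm.aemeasurable, fun b => ?_⟩
  have hI : ∫ k, (mFourier b k : ℂ) ∂(μ.map Subtype.val) = ∫ k : ann A, (mFourier b (k : T s) : ℂ) ∂μ :=
    integral_map hm.aemeasurable (mFourier b).continuous.aestronglyMeasurable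
  have hf : ∀ k : T s, (mFourier b k : ℂ) = fourier 1 (chi b k) := by
    intro k
    rw [tch_c, one_smul]
  rw [hI]
  constructor
  · intro hb
    have h1 : ∀ k : ann A, (mFourier b (k : T s) : ℂ) = 1 := by
      intro k
      rw [hf, k.2 b hb]
      simp
    simp only [h1]
    simp
  · intro hb
    obtain ⟨k₀, hk₀, hne⟩ := exists_ann A b hb
    have h1 : ∫ k : ann A, (mFourier b (k : T s) : ℂ) ∂μ =
        fourier 1 (chi b k₀) * ∫ k : ann A, (mFourier b (k : T s) : ℂ) ∂μ := by
      conv_lhs => rw [← integral_add_right_eq_self (fun k : ann A => (mFourier b (k : T s) : ℂ))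
        (⟨k₀, hk₀⟩ : ann A)]
      rw [← integral_const_mul]
      refine integral_congr_ae (Filter.Eventually.of_forall fun k => ?_)
      show (mFourier b ((k : T s) + k₀) : ℂ) = fourier 1 (chi b k₀) * (mFourier b (k : T s) : ℂ)
      rw [hf, hf, chi_add]
      simp only [fourier_one, AddCircle.toCircle_add, Circle.coe_mul]
      ring
    have h2 : (fourier 1 (chi b k₀) : ℂ) ≠ 1 := by
      intro h3
      apply hne
      apply Pool.Agent.Helper40.JZ.erg_fourier_inj
      rw [h3, fourier_one, AddCircle.toCircle_zero, Circle.coe_one]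
    have h3 : (1 - (fourier 1 (chi b k₀) : ℂ)) * ∫ k : ann A, (mFourier b (k : T s) : ℂ) ∂μ = 0 := by
      rw [sub_mul, one_mul, ← h1, sub_self]
    rcases mul_eq_zero.1 h3 with h4 | h4
    · exact absurd (sub_eq_zero.1 h4).symm h2
    · exact h4

end Pool.Agent.Helper40.KZ
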