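import Pool.Agent.Helper40.KZ.Stmts

/-! Row SEL: the lifts of a type come from a measurable function with values in the fibre.
[helper29] -/

open Finset Filter MeasureTheory Topology
open scoped ComplexConjugate InnerProductSpace

namespace Pool.Agent.Helper40.KZ

open Pool.Agent.Helper16.AZ (T E Op mm fc Ind)
open Pool.Agent.Helper40.JZ (U cs tor Lift pj ms chi vz LM StrP)
open UnitAddTorus (mFourier)

/-- dual vectors for a basis of a subgroup -/
theorem dual_basis {s : ℕ} (A : AddSubgroup (Fin s → ℤ)) :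
    ∃ (n : ℕ) (v : Fin n → A) (B : Fin s → Fin n → ℚ),
      (∀ j i, ∑ l, (((v j : Fin s → ℤ) l : ℤ) : ℚ) * B l i = if i = j then 1 else 0) ∧
      ∀ a : A, ∃ c : Fin n → ℤ, a = ∑ j, c j • v j := by
  obtain ⟨n, b⟩ := Submodule.basisOfPid (Pi.basisFun ℤ (Fin s)) (AddSubgroup.toIntSubmodule A)
  let φ : (Fin s → ℤ) →ₗ[ℤ] (Fin s → ℚ) := (Int.castAddHom ℚ).toIntLinearMap.compLeft (Fin s)
  have hφ : ∀ w l, φ w l = ((w l : ℤ) : ℚ) := fun w l => rfl
  let ψ : (AddSubgroup.toIntSubmodule A) →ₗ[ℤ] (Fin s → ℚ) :=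
    φ.comp (AddSubgroup.toIntSubmodule A).subtype
  have hψ : LinearMap.ker ψ = ⊥ := by
    rw [LinearMap.ker_eq_bot]
    intro x y hxy
    apply Subtype.ext
    funext l
    have h1 := congrFun hxy l
    have h2 : (((x : Fin s → ℤ) l : ℤ) : ℚ) = (((y : Fin s → ℤ) l : ℤ) : ℚ) := h1
    exact_mod_cast h2
  have hli : LinearIndependent ℚ (ψ ∘ b) :=
    (LinearIndependent.iff_fractionRing ℤ ℚ).1 (b.linearIndependent.map' ψ hψ)
  have hinj := hli.fintypeLinearCombination_injective
  obtain ⟨g, hg⟩ := LinearMap.exists_leftInverse_of_injective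
    (Fintype.linearCombination ℚ (ψ ∘ b)) (LinearMap.ker_eq_bot.2 hinj)
  refine ⟨n, fun j => ⟨(b j : Fin s → ℤ), (b j).2⟩, fun l i => g (Pi.single l 1) i, ?_, ?_⟩
  · intro j i
    have h1 : g (ψ (b j)) = Pi.single j 1 := by
      have h2 : Fintype.linearCombination ℚ (ψ ∘ b) (Pi.single j 1) = ψ (b j) := by
        rw [Fintype.linearCombination_apply_single, one_smul]
        rfl
      rw [← h2]
      exact congrArg (fun z => z (Pi.single j 1)) hg
    have h3 : ψ (b j) = ∑ l, (((b j : Fin s → ℤ) l : ℤ) : ℚ) • (Pi.single l (1 : ℚ)) := by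
      funext l
      rw [Finset.sum_apply]
      simp only [Pi.smul_apply, Pi.single_apply, smul_eq_mul, mul_ite, mul_one, mul_zero]
      rw [Finset.sum_ite_eq]
      simp only [mem_univ, if_true]
      rfl
    rw [h3, map_sum] at h1
    have h4 := congrFun h1 i
    rw [Finset.sum_apply] at h4
    simp only [map_smul, Pi.smul_apply, smul_eq_mul, Pi.single_apply] at h4
    exact h4
  · intro a
    have ha : (a : Fin s → ℤ) ∈ AddSubgroup.toIntSubmodule A := a.2
    refine ⟨fun j => b.repr ⟨a, ha⟩ j, ?_⟩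
    apply Subtype.ext
    have h1 := b.sum_repr ⟨a, ha⟩
    have h2 := congrArg (fun z : (AddSubgroup.toIntSubmodule A) => (z : Fin s → ℤ)) h1
    simp only [Submodule.coe_sum, Submodule.coe_smul] at h2
    refine h2.symm.trans ?_
    simp only [AddSubgroup.val_finsetSum, AddSubgroup.coe_zsmul]

/-- representatives in the unit interval -/
noncomputable def rep (u : U) : ℝ := (AddCircle.measurableEquivIoc (T := 1) 0 u : ℝ)

theorem measurable_rep : Measurable rep :=
  measurable_subtype_coe.comp (AddCircle.measurableEquivIoc (T := 1) 0).measurable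

theorem coe_rep (u : U) : ((rep u : ℝ) : U) = u :=
  (AddCircle.equivIoc (1 : ℝ) 0).symm_apply_apply u

theorem zsmul_coe (n : ℤ) (x : ℝ) : n • ((x : ℝ) : U) = (((n : ℝ) * x : ℝ) : U) := by
  rw [← AddCircle.coe_zsmul, zsmul_eq_mul]

theorem coe_sum {ι : Type} (S : Finset ι) (x : ι → ℝ) :
    ((∑ i ∈ S, x i : ℝ) : U) = ∑ i ∈ S, ((x i : ℝ) : U) :=
  map_sum (QuotientAddGroup.mk' (AddSubgroup.zmultiples (1 : ℝ))) x S

theorem st_SEL : ST_SEL := by
  intro r s θ f q t hq hOK
  obtain ⟨n, v, B, hB, hv⟩ := dual_basis t.1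
  refine ⟨fun σ x l => ((∑ i, (B l i : ℝ) * rep (t.2 (v i : Fin s → ℤ) σ x) : ℝ) : U), ?_, ?_⟩
  · intro σ hσ
    rw [measurable_pi_iff]
    intro l
    apply AddCircle.measurable_mk'.comp
    refine Finset.measurable_sum _ fun i _ => ?_
    exact measurable_const.mul (measurable_rep.comp ((hOK.1 _ (v i).2).1 σ hσ))
  · intro a ha σ hσ
    have hadd : ∀ᵐ x ∂(mm r), ∀ a b : t.1, t.2 ((a : Fin s → ℤ) + b) σ x =
        t.2 (a : Fin s → ℤ) σ x + t.2 (b : Fin s → ℤ) σ x := by
      rw [ae_all_iff]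
      intro a
      rw [ae_all_iff]
      intro b
      exact hOK.2.1 _ a.2 _ b.2 σ hσ
    filter_upwards [hadd] with x hx
    set κ : T s := fun l => ((∑ i, (B l i : ℝ) * rep (t.2 (v i : Fin s → ℤ) σ x) : ℝ) : U) with hκ
    let h : t.1 →+ U := AddMonoidHom.mk' (fun a => t.2 (a : Fin s → ℤ) σ x) (fun a b => hx a b)
    let g : t.1 →+ U := AddMonoidHom.mk' (fun a => chi (a : Fin s → ℤ) κ)
      (fun a b => chi_add_left _ _ _)
    have hgv : ∀ j, g (v j) = h (v j) := by
      intro j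
      show chi (v j : Fin s → ℤ) κ = t.2 (v j : Fin s → ℤ) σ x
      have h1 : chi (v j : Fin s → ℤ) κ = ((∑ l, (((v j : Fin s → ℤ) l : ℤ) : ℝ) *
          ∑ i, (B l i : ℝ) * rep (t.2 (v i : Fin s → ℤ) σ x) : ℝ) : U) := by
        rw [coe_sum]
        unfold chi
        refine Finset.sum_congr rfl fun l _ => ?_
        exact zsmul_coe _ _
      have h2 : (∑ l, (((v j : Fin s → ℤ) l : ℤ) : ℝ) *
          ∑ i, (B l i : ℝ) * rep (t.2 (v i : Fin s → ℤ) σ x) : ℝ) =
          rep (t.2 (v j : Fin s → ℤ) σ x) := by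
        simp only [Finset.mul_sum]
        rw [Finset.sum_comm]
        have h3 : ∀ i, (∑ l, (((v j : Fin s → ℤ) l : ℤ) : ℝ) *
            ((B l i : ℝ) * rep (t.2 (v i : Fin s → ℤ) σ x))) =
            (if i = j then 1 else 0) * rep (t.2 (v i : Fin s → ℤ) σ x) := by
          intro i
          have h4 : (∑ l, (((v j : Fin s → ℤ) l : ℤ) : ℝ) * (B l i : ℝ)) =
              (if i = j then (1 : ℝ) else 0) := by
            have h5 := hB j i
            have h6 := congrArg (fun z : ℚ => (z : ℝ)) h5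
            push_cast at h6
            rw [h6]
            split_ifs <;> simp
          rw [← h4, Finset.sum_mul]
          refine Finset.sum_congr rfl fun l _ => ?_
          ring
        simp only [h3]
        simp
      rw [h1, h2, coe_rep]
    obtain ⟨c, hc⟩ := hv ⟨a, ha⟩
    have h7 : g ⟨a, ha⟩ = h ⟨a, ha⟩ := by
      rw [hc, map_sum, map_sum]
      refine Finset.sum_congr rfl fun j _ => ?_
      rw [map_zsmul, map_zsmul, hgv]
    exact h7

end Pool.Agent.Helper40.KZ
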