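import Pool.Agent.Helper40.KZ.Stmts
import Pool.Agent.Helper40.JZ.UEN
import Pool.Agent.Helper40.DZ.GBS

/-! Row UEN5: uniquely ergodic skew products in the sense of the hand-in.   [helper29] -/

open Finset Filter MeasureTheory Topology
open scoped ComplexConjugate InnerProductSpace

namespace Pool.Agent.Helper40.KZ

open Pool.Agent.Helper16.AZ (T E Op mm fc Ind)
open Pool.Agent.Helper16.BZ (co Wk EE ff EQ)
open Pool.Agent.Helper40.DZ (RI UR SK Good3)
open Pool.Agent.Helper40.JZ (U cs tor Lift pj ms chi vz LM StrP inv_const_zero ergodic_of_unique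
  ne_half smul_half)
open UnitAddTorus (mFourier)

theorem mp_ini5 (hF : ST_FIB5) (r s : ℕ) :
    MeasurePreserving (ini : T (r + s) → T r) (mm (r + s)) (mm r) := by
  have h1 := (hF r s).1
  have h2 : MeasurePreserving (Prod.fst : T r × T s → T r)
      ((mm r).prod (mm s)) (mm r) := measurePreserving_fst
  refine ⟨continuous_ini.measurable, ?_⟩
  rw [← h1.map_eq, Measure.map_map continuous_ini.measurable h1.measurable]
  have h3 : (ini ∘ fun z : T r × T s => sn z.1 z.2) = (Prod.fst : T r × T s → T r) := by
    funext z
    simp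
  rw [h3, h2.map_eq]

/-- permutation of the coordinates -/
def pm {R : ℕ} (e : Fin R ≃ Fin R) : T R ≃ₜ T R where
  toFun x := fun i => x (e i)
  invFun x := fun i => x (e.symm i)
  left_inv x := by
    funext i
    simp
  right_inv x := by
    funext i
    simp
  continuous_toFun := continuous_pi fun i => continuous_apply _
  continuous_invFun := continuous_pi fun i => continuous_apply _

theorem pm_apply {R : ℕ} (e : Fin R ≃ Fin R) (x : T R) (i : Fin R) : pm e x i = x (e i) := rfl

theorem pm_symm_apply {R : ℕ} (e : Fin R ≃ Fin R) (x : T R) (i : Fin R) :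
    (pm e).symm x i = x (e.symm i) := rfl

theorem mp_pm_symm {R : ℕ} (e : Fin R ≃ Fin R) :
    MeasurePreserving (pm e).symm (mm R) (mm R) := by
  have h := measurePreserving_piCongrLeft
    (fun _ : Fin R => (AddCircle.haarAddCircle : Measure U)) e
  have h1 : (MeasurableEquiv.piCongrLeft (fun _ : Fin R => U) e : (Fin R → U) → (Fin R → U)) =
      (pm e).symm := by
    funext x
    funext i
    obtain ⟨j, rfl⟩ := e.surjective i
    rw [pm_symm_apply, e.symm_apply_apply]
    exact Equiv.piCongrLeft_apply_apply (fun _ : Fin R => U) e x j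
  rw [h1] at h
  exact h

theorem mp_pm {R : ℕ} (e : Fin R ≃ Fin R) : MeasurePreserving (pm e) (mm R) (mm R) := by
  have h := mp_pm_symm e
  have h2 := MeasurePreserving.symm (pm e).symm.toMeasurableEquiv h
  exact h2

/-- coordinates in `B` first -/
theorem split_coords {n : ℕ} (B : Set (Fin n)) : ∃ (r s : ℕ) (e : Fin r ⊕ Fin s ≃ Fin n),
    (∀ i, e (Sum.inl i) ∈ B) ∧ ∀ j, e (Sum.inr j) ∉ B := by
  classical
  refine ⟨Fintype.card {i // i ∈ B}, Fintype.card {i // i ∉ B},
    (Equiv.sumCongr (Fintype.equivFin {i // i ∈ B}).symm (Fintype.equivFin {i // i ∉ B}).symm).trans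
      (Equiv.sumCompl (fun i => i ∈ B)), ?_, ?_⟩
  · intro i
    exact ((Fintype.equivFin {i // i ∈ B}).symm i).2
  · intro j
    exact ((Fintype.equivFin {i // i ∉ B}).symm j).2

/-- the skew products with unique invariant measure satisfy the hypotheses -/
theorem uen_core (hF : ST_FIB5) (r s : ℕ) (θ : T r) (f : T r → T s)
    (hE : Ergodic (SA θ f) (mm (r + s))) : Ind θ ∧ N0 θ f := by
  constructor
  · intro X hX h0
    obtain ⟨i, hi⟩ : ∃ i, X i ≠ 0 := by
      by_contra hh
      push Not at hh
      exact hX (funext hh)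
    refine inv_const_zero (SA θ f) hE (fun y => ∑ j, X j • ini y j) ?_ ?_
      (sn (Pi.single i (((1 : ℝ) / (2 * X i) : ℝ) : U)) 0) (((1 : ℝ) / 2 : ℝ) : U) ne_half ?_
    · refine Continuous.measurable ?_
      have := (continuous_ini : Continuous (ini : T (r + s) → T r))
      refine continuous_finsetSum _ fun j _ => ?_
      exact ((continuous_apply j).comp this).zsmul (X j)
    · refine Eventually.of_forall fun y => ?_
      simp only [SA, ini_sn, Pi.add_apply, smul_add, Finset.sum_add_distrib]
      rw [h0, add_zero]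
    · intro y
      have h1 : ∀ j, ini (y + sn (Pi.single i (((1 : ℝ) / (2 * X i) : ℝ) : U)) (0 : T s)) j =
          ini y j + (Pi.single i (((1 : ℝ) / (2 * X i) : ℝ) : U) : T r) j := by
        intro j
        have : ∀ z : T (r + s), ini (y + z) j = ini y j + ini z j := fun z => rfl
        rw [this, ini_sn]
      simp only [h1, smul_add, Finset.sum_add_distrib]
      congr 1
      rw [Finset.sum_eq_single i]
      · rw [Pi.single_eq_same, smul_half _ hi]
      · intro j _ hj
        rw [Pi.single_eq_of_ne hj, smul_zero]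
      · intro h
        exact absurd (Finset.mem_univ i) h
  · intro a ha u hum h0
    obtain ⟨i, hi⟩ : ∃ i, a i ≠ 0 := by
      by_contra hh
      push Not at hh
      exact ha (funext hh)
    refine inv_const_zero (SA θ f) hE (fun y => chi a (las y) + u (ini y)) ?_ ?_
      (sn (0 : T r) (Pi.single i (((1 : ℝ) / (2 * a i) : ℝ) : U) : T s))
      (((1 : ℝ) / 2 : ℝ) : U) ne_half ?_
    · have h1 : Measurable fun y : T (r + s) => chi a (las y) :=
        ((continuous_chi a).comp continuous_las).measurable
      exact h1.add (hum.comp continuous_ini.measurable)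
    · have h1 := (mp_ini5 hF r s).quasiMeasurePreserving.ae h0
      filter_upwards [h1] with y hy
      simp only [SA, ini_sn, las_sn, chi_add]
      rw [add_assoc]
      have h2 : chi a (f (ini y)) + u (ini y + θ) = u (ini y) := hy
      rw [h2]
    · intro y
      have h1 : las (y + sn (0 : T r) (Pi.single i (((1 : ℝ) / (2 * a i) : ℝ) : U) : T s)) =
          las y + (Pi.single i (((1 : ℝ) / (2 * a i) : ℝ) : U) : T s) := by
        have : ∀ z : T (r + s), las (y + z) = las y + las z := fun z => rfl
        rw [this, las_sn]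
      have h2 : ini (y + sn (0 : T r) (Pi.single i (((1 : ℝ) / (2 * a i) : ℝ) : U) : T s)) =
          ini y := by
        have : ∀ z : T (r + s), ini (y + z) = ini y + ini z := fun z => rfl
        rw [this, ini_sn, add_zero]
      have h3 : chi a (Pi.single i (((1 : ℝ) / (2 * a i) : ℝ) : U) : T s) =
          (((1 : ℝ) / 2 : ℝ) : U) := by
        unfold chi
        rw [Finset.sum_eq_single i]
        · rw [Pi.single_eq_same, smul_half _ hi]
        · intro j _ hj
          rw [Pi.single_eq_of_ne hj, smul_zero]
        · intro h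
          exact absurd (Finset.mem_univ i) h
      simp only [h1, h2, chi_add, h3]
      abel

theorem st_UEN5 (hF : ST_FIB5) (hM : ST_MPA5) (hEQ : ST_EQA5) (hA : ST_ANZ5) : ST_UEN5 := by
  intro n S hS
  obtain ⟨⟨B, θ₀, hB, hd⟩, hu⟩ := hS
  obtain ⟨r, s, e₀, he1, he2⟩ := split_coords B
  obtain rfl : n = r + s := by
    have := Fintype.card_congr e₀
    simpa using this.symm
  let e : Fin (r + s) ≃ Fin (r + s) := finSumFinEquiv.symm.trans e₀
  have hel : ∀ i, e (Fin.castAdd s i) = e₀ (Sum.inl i) := by
    intro i
    show e₀ (finSumFinEquiv.symm (Fin.castAdd s i)) = _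
    rw [finSumFinEquiv_symm_apply_castAdd]
  have her : ∀ j, e (Fin.natAdd r j) = e₀ (Sum.inr j) := by
    intro j
    show e₀ (finSumFinEquiv.symm (Fin.natAdd r j)) = _
    rw [finSumFinEquiv_symm_apply_natAdd]
  let θ : T r := fun i => θ₀ (e (Fin.castAdd s i))
  let f : T r → T s := fun x j => S ((pm e).symm (sn x 0)) (e (Fin.natAdd r j)) -
    (pm e).symm (sn x 0) (e (Fin.natAdd r j))
  have hc : Continuous f := by
    refine continuous_pi fun j => ?_
    have h2 : Continuous fun x : T r => (pm e).symm (sn x (0 : T s)) :=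
      (pm e).symm.continuous.comp (continuous_sn.comp (continuous_id.prodMk continuous_const))
    exact ((continuous_apply _).comp (S.continuous.comp h2)).sub ((continuous_apply _).comp h2)
  have hconj : ∀ y : T (r + s), pm e (S ((pm e).symm y)) = SA θ f y := by
    intro y
    funext i
    refine Fin.addCases (fun i => ?_) (fun j => ?_) i
    · rw [pm_apply, hB _ _ (by rw [hel]; exact he1 i)]
      have h1 : SA θ f y (Fin.castAdd s i) = y (Fin.castAdd s i) + θ i := by
        show Fin.append (ini y + θ) (las y + f (ini y)) (Fin.castAdd s i) = _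
        rw [Fin.append_left]
        rfl
      rw [h1, pm_symm_apply, e.symm_apply_apply]
    · have h1 : SA θ f y (Fin.natAdd r j) = y (Fin.natAdd r j) + f (ini y) j := by
        show Fin.append (ini y + θ) (las y + f (ini y)) (Fin.natAdd r j) = _
        rw [Fin.append_right]
        rfl
      rw [h1, pm_apply]
      have h2 := hd ((pm e).symm y) ((pm e).symm (sn (ini y) 0)) (by
        intro l hl
        obtain ⟨l, rfl⟩ := e.surjective l
        rw [pm_symm_apply, pm_symm_apply, e.symm_apply_apply]
        revert hl
        refine Fin.addCases (fun i _ => ?_) (fun j hl => ?_) l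
        · show _ = Fin.append (ini y) 0 (Fin.castAdd s i)
          rw [Fin.append_left]
          rfl
        · exact absurd hl (by rw [her]; exact he2 j)) (e (Fin.natAdd r j))
      have h3 : S ((pm e).symm y) (e (Fin.natAdd r j)) =
          (pm e).symm y (e (Fin.natAdd r j)) + f (ini y) j := by
        show _ = _ + (S ((pm e).symm (sn (ini y) 0)) (e (Fin.natAdd r j)) -
          (pm e).symm (sn (ini y) 0) (e (Fin.natAdd r j)))
        rw [← h2]
        abel
      rw [h3, pm_symm_apply, e.symm_apply_apply]
  have hc1 : ∀ x, pm e (S x) = SA θ f (pm e x) := by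
    intro x
    rw [← hconj, (pm e).symm_apply_apply]
  have hc2 : ∀ y, S ((pm e).symm y) = (pm e).symm (SA θ f y) := by
    intro y
    rw [← hconj, (pm e).symm_apply_apply]
  have hMA := (hM r s θ f hc).1
  -- unique invariant measure
  have hE : Ergodic (SA θ f) (mm (r + s)) := by
    refine ergodic_of_unique _ _ hMA fun ν hν hν' => ?_
    have key : ∀ μ : Measure (T (r + s)), IsProbabilityMeasure μ →
        MeasurePreserving (SA θ f) μ μ →
        IsProbabilityMeasure (μ.map (pm e).symm) ∧
        MeasurePreserving S (μ.map (pm e).symm) (μ.map (pm e).symm) := by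
      intro μ hμ hμ'
      have hm : Measurable (pm e).symm := (pm e).symm.continuous.measurable
      refine ⟨Measure.isProbabilityMeasure_map hm.aemeasurable, S.continuous.measurable, ?_⟩
      rw [Measure.map_map S.continuous.measurable hm]
      have h1 : (S : T (r + s) → T (r + s)) ∘ (pm e).symm = (pm e).symm ∘ (SA θ f) := by
        funext y
        exact hc2 y
      rw [h1, ← Measure.map_map hm hμ'.measurable, hμ'.map_eq]
    obtain ⟨k1, k2⟩ := key ν hν hν'
    obtain ⟨k3, k4⟩ := key (mm (r + s)) inferInstance hMA
    have h2 := @hu _ _ k1 k3 k2 k4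
    have h3 := congrArg (fun μ : Measure (T (r + s)) => μ.map (pm e)) h2
    have hm : Measurable (pm e).symm := (pm e).symm.continuous.measurable
    have hm' : Measurable (pm e) := (pm e).continuous.measurable
    simp only [Measure.map_map hm' hm] at h3
    have h4 : (pm e : T (r + s) → T (r + s)) ∘ (pm e).symm = id := by
      funext y
      exact (pm e).apply_symm_apply y
    rw [h4, Measure.map_id, Measure.map_id] at h3
    exact h3
  obtain ⟨hInd, hN0⟩ := uen_core hF r s θ f hE
  have hmp := mp_pm e
  have hmps := mp_pm_symm e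
  refine ⟨?_, ?_, ?_⟩
  · exact Pool.Agent.Helper40.DZ.gbs_conj (S : T (r + s) → T (r + s)) (SA θ f) (pm e) hmp hc1
      (hA r s θ f hInd hc hN0)
  · intro p hp F hFc x
    have h1 := hEQ r s θ f hInd hc hN0 p hp (fun y => F ((pm e).symm y))
      (hFc.comp (pm e).symm.continuous) (pm e x)
    have hit : ∀ k : ℕ, (pm e).symm ((SA θ f)^[k] (pm e x)) = S^[k] x := by
      intro k
      rw [(pm e).symm_apply_eq]
      exact ((Function.Semiconj.iterate_right (f := pm e) (ga := S) (gb := SA θ f) hc1 k) x).symm
    simp only [hit] at h1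
    have h2 : ∫ y, F ((pm e).symm y) ∂(mm (r + s)) = ∫ y, F y ∂(mm (r + s)) :=
      hmps.integral_comp (pm e).symm.measurableEmbedding F
    rwa [h2] at h1
  · have h1 : (S : T (r + s) → T (r + s)) = (pm e).symm ∘ (SA θ f) ∘ (pm e) := by
      funext x
      show S x = (pm e).symm (SA θ f (pm e x))
      rw [← hc1, (pm e).symm_apply_apply]
    rw [h1]
    exact hmps.comp (hMA.comp hmp)

end Pool.Agent.Helper40.KZ
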